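import Pool.Agent.H47.Grid.Deduce

/-!
# Distortion of `ℓ_∞` grids in spaces of Rademacher cotype `q`

For every `q > 1` and `C` there is `c > 0` such that every normed space `Y` of Rademacher cotype
`q` with constant `C` satisfies, for all `n, m ≥ 1`,
`c_Y([m]_∞^n) ≥ c * min (n^(1/q)) (m^(2/(q+2)))`.
In particular `c_Y([m]_∞^n) ≥ c n^(1/q)` as soon as `m ≥ n^(1/2+1/q)`, and
`c_Y([⌈n^(1/q)⌉]_∞^n) ≥ c n^(2/(q(q+2)))`.
-/

namespace Pool.Agent.Results.MP_a656fc_an.CotypeGrid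

/-- The grid `{0, 1, …, m}^n`. -/
abbrev Grid (n m : ℕ) := Fin n → Fin (m + 1)

/-- A point of the grid as a point of `ℝ^n`. -/
def toReal {n m : ℕ} (x : Grid n m) : Fin n → ℝ := fun i => ((x i : ℕ) : ℝ)

/-- The `ℓ_∞` distance of two points of the grid (`dist` on `Fin n → ℝ` is the sup distance). -/
noncomputable def gridDist {n m : ℕ} (x y : Grid n m) : ℝ := dist (toReal x) (toReal y)

/-- The grid `[m]_∞^n` embeds into `Y` with distortion `D`. -/
def EmbedsWithDistortion (n m : ℕ) (Y : Type*) [NormedAddCommGroup Y] (D : ℝ) : Prop :=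
  ∃ (f : Grid n m → Y) (l : ℝ), 0 < l ∧
    ∀ x y, l * gridDist x y ≤ dist (f x) (f y) ∧ dist (f x) (f y) ≤ D * l * gridDist x y

/-- `Y` has Rademacher cotype `q` with constant `C`; the expectation over `k` independent uniform
signs is the average over all `ε : Fin k → Bool`. -/
def HasCotype (Y : Type*) [NormedAddCommGroup Y] [NormedSpace ℝ Y] (q C : ℝ) : Prop :=
  ∀ (k : ℕ) (y : Fin k → Y),
    (∑ j, ‖y j‖ ^ q) ^ (1 / q) ≤
      C * ((∑ ε : Fin k → Bool, ‖∑ j, (if ε j then (1 : ℝ) else -1) • y j‖ ^ q) / 2 ^ k) ^ (1 / q)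

universe u

/-- **Main result.** -/
theorem result : ∀ q C : ℝ, 1 < q → ∃ c : ℝ, 0 < c ∧
    ∀ (Y : Type u) [NormedAddCommGroup Y] [NormedSpace ℝ Y], HasCotype Y q C →
      ∀ n m : ℕ, 1 ≤ n → 1 ≤ m → ∀ D : ℝ, EmbedsWithDistortion n m Y D →
        c * min ((n : ℝ) ^ (1 / q)) ((m : ℝ) ^ (2 / (q + 2))) ≤ D ∧
        ((n : ℝ) ^ (1 / 2 + 1 / q) ≤ m → c * (n : ℝ) ^ (1 / q) ≤ D) ∧
        (m = ⌈(n : ℝ) ^ (1 / q)⌉₊ → c * (n : ℝ) ^ (2 / (q * (q + 2))) ≤ D) := by
  intro q C hq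
  have hq0 : 0 < q := by linarith
  have hC : (0 : ℝ) < max C 1 := lt_of_lt_of_le one_pos (le_max_right _ _)
  refine ⟨1 / (8464 * max C 1), by positivity, ?_⟩
  intro Y _ _ hY n m hn hm D hD
  have hn1 : (1 : ℝ) ≤ n := by exact_mod_cast hn
  have hm1 : (1 : ℝ) ≤ m := by exact_mod_cast hm
  have hlb := Pool.Agent.H47.Grid.lower_bound (Y := Y) hq hY hn hm hD
  have key : 1 / (8464 * max C 1) * min ((n : ℝ) ^ (1 / q)) ((m : ℝ) ^ (2 / (q + 2))) ≤ D := by
    rw [one_div, inv_mul_le_iff₀ (by positivity)]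
    exact hlb
  have hc0 : (0 : ℝ) ≤ 1 / (8464 * max C 1) := by positivity
  refine ⟨key, fun h => ?_, fun h => ?_⟩
  · refine le_trans ?_ key
    apply mul_le_mul_of_nonneg_left _ hc0
    refine le_min le_rfl ?_
    calc (n : ℝ) ^ (1 / q) = ((n : ℝ) ^ (1 / 2 + 1 / q)) ^ (2 / (q + 2)) := by
          rw [← Real.rpow_mul (by linarith)]
          congr 1
          field_simp
      _ ≤ (m : ℝ) ^ (2 / (q + 2)) := Real.rpow_le_rpow (by positivity) h (by positivity)
  · refine le_trans ?_ key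
    apply mul_le_mul_of_nonneg_left _ hc0
    have e : (n : ℝ) ^ (2 / (q * (q + 2))) = ((n : ℝ) ^ (1 / q)) ^ (2 / (q + 2)) := by
      rw [← Real.rpow_mul (by linarith)]
      congr 1
      field_simp
    refine le_min ?_ ?_
    · rw [e]
      calc ((n : ℝ) ^ (1 / q)) ^ (2 / (q + 2)) ≤ ((n : ℝ) ^ (1 / q)) ^ (1 : ℝ) := by
            apply Real.rpow_le_rpow_of_exponent_le (Real.one_le_rpow hn1 (by positivity))
            rw [div_le_one (by linarith)]
            linarith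
        _ = _ := Real.rpow_one _
    · rw [e]
      apply Real.rpow_le_rpow (by positivity) _ (by positivity)
      rw [h]
      exact Nat.le_ceil _

end Pool.Agent.Results.MP_a656fc_an.CotypeGrid
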