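import Pool.Agent.H6.Snow.Main

/-!
# Distortion of `ℓ_∞` grids in Banach spaces of cotype `q`: a counterexample for every `q > 2`

For every `q > 2` and every exponent `a` with `2/q < a < 1` there is a Banach space `Y` of
Rademacher cotype `q` in which every grid `[m]_∞^n` embeds with distortion at most `K m^a`.
In particular `inf_n n^(-1/q) c_Y([⌈n^(1/q)⌉]_∞^n) = 0`.
-/

namespace Pool.Agent.Results.MP_a656fc_an.SnowflakeCounterexample

open Filter Topology
open scoped ENNReal BoundedContinuousFunction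

/-- The grid `{0, 1, …, m}^n`. -/
abbrev Grid (n m : ℕ) := Fin n → Fin (m + 1)

/-- A point of the grid as a point of `ℝ^n`. -/
def toReal {n m : ℕ} (x : Grid n m) : Fin n → ℝ := fun i => ((x i : ℕ) : ℝ)

/-- The `ℓ_∞` distance of two points of the grid (`dist` on `Fin n → ℝ` is the sup distance). -/
noncomputable def gridDist {n m : ℕ} (x y : Grid n m) : ℝ := dist (toReal x) (toReal y)

/-- The grid `[m]_∞^n` embeds into `Y` with distortion `D`. -/
def EmbedsWithDistortion (n m : ℕ) (Y : Type*) [NormedAddCommGroup Y] (D : ℝ) : Prop :=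
  ∃ (f : Grid n m → Y) (l : ℝ), 0 < l ∧
    ∀ x y, l * gridDist x y ≤ dist (f x) (f y) ∧ dist (f x) (f y) ≤ D * l * gridDist x y

/-- `c_Y([m]_∞^n)`: the infimum, in `[0, ∞]`, of the distortions with which the grid embeds
into `Y`. -/
noncomputable def distortion (n m : ℕ) (Y : Type*) [NormedAddCommGroup Y] : ℝ≥0∞ :=
  ⨅ (D : ℝ) (_ : EmbedsWithDistortion n m Y D), ENNReal.ofReal D

/-- `Y` has Rademacher cotype `q` with constant `C`; the expectation over `k` independent uniform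
signs is the average over all `ε : Fin k → Bool`. -/
def HasCotype (Y : Type*) [NormedAddCommGroup Y] [NormedSpace ℝ Y] (q C : ℝ) : Prop :=
  ∀ (k : ℕ) (y : Fin k → Y),
    (∑ j, ‖y j‖ ^ q) ^ (1 / q) ≤
      C * ((∑ ε : Fin k → Bool, ‖∑ j, (if ε j then (1 : ℝ) else -1) • y j‖ ^ q) / 2 ^ k) ^ (1 / q)

/-- A grid point as a bounded function on `ℕ`. -/
noncomputable def emb {n m : ℕ} (x : Grid n m) : ℕ →ᵇ ℝ :=
  BoundedContinuousFunction.ofNormedAddCommGroupDiscrete
    (fun i => if h : i < n then toReal x ⟨i, h⟩ else 0) m (fun i => by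
      by_cases h : i < n
      · simp only [h, dif_pos, toReal, Real.norm_eq_abs, Nat.abs_cast]
        have := (x ⟨i, h⟩).2
        exact_mod_cast Nat.lt_succ_iff.1 this
      · simp only [h, dif_neg, not_false_eq_true, norm_zero]
        positivity)

lemma emb_apply {n m : ℕ} (x : Grid n m) (i : ℕ) :
    emb x i = if h : i < n then toReal x ⟨i, h⟩ else 0 := rfl

lemma dist_emb {n m : ℕ} (x y : Grid n m) : dist (emb x) (emb y) = gridDist x y := by
  apply le_antisymm
  · refine (BoundedContinuousFunction.dist_le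
      (show 0 ≤ gridDist x y from dist_nonneg)).2 (fun i => ?_)
    rw [emb_apply, emb_apply]
    by_cases h : i < n
    · rw [dif_pos h, dif_pos h]
      exact dist_le_pi_dist (toReal x) (toReal y) ⟨i, h⟩
    · rw [dif_neg h, dif_neg h, dist_self]
      exact dist_nonneg
  · rw [gridDist, dist_pi_le_iff dist_nonneg]
    intro i
    have h := BoundedContinuousFunction.dist_coe_le_dist (f := emb x) (g := emb y) (i : ℕ)
    rw [emb_apply, emb_apply, dif_pos i.2, dif_pos i.2] at h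
    exact h

lemma gridDist_le {n m : ℕ} (x y : Grid n m) : gridDist x y ≤ m := by
  rw [gridDist, dist_pi_le_iff (by positivity)]
  intro i
  rw [Real.dist_eq, abs_le]
  have h1 : ((x i : ℕ) : ℝ) ≤ m := by exact_mod_cast Nat.lt_succ_iff.1 (x i).2
  have h2 : ((y i : ℕ) : ℝ) ≤ m := by exact_mod_cast Nat.lt_succ_iff.1 (y i).2
  have h3 : (0 : ℝ) ≤ ((x i : ℕ) : ℝ) := Nat.cast_nonneg _
  have h4 : (0 : ℝ) ≤ ((y i : ℕ) : ℝ) := Nat.cast_nonneg _
  simp only [toReal]
  constructor <;> linarith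

lemma one_le_gridDist {n m : ℕ} {x y : Grid n m} (h : x ≠ y) : 1 ≤ gridDist x y := by
  obtain ⟨i, hi⟩ := Function.ne_iff.1 h
  refine le_trans ?_ (dist_le_pi_dist (toReal x) (toReal y) i)
  rw [Real.dist_eq]
  simp only [toReal]
  have h1 : ((x i : ℕ) : ℤ) - ((y i : ℕ) : ℤ) ≠ 0 := by
    intro h2
    apply hi
    apply Fin.ext
    omega
  have h2 := Int.one_le_abs h1
  exact_mod_cast h2

lemma gridDist_self {n m : ℕ} (x : Grid n m) : gridDist x x = 0 := dist_self _

/-- A snowflake embedding of `ℓ_∞` gives embeddings of all grids. -/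
lemma embeds_of_snow {Y : Type*} [NormedAddCommGroup Y] {α K : ℝ} (h1 : α < 1)
    (hK : 0 < K) (f : (ℕ →ᵇ ℝ) → Y) (hf : ∀ x y, 1 / 2 * dist x y ^ α ≤ ‖f x - f y‖ ∧
      ‖f x - f y‖ ≤ K * dist x y ^ α) {n m : ℕ} (hm : 1 ≤ m) :
    EmbedsWithDistortion n m Y (2 * K * (m : ℝ) ^ (1 - α)) := by
  have hm0 : (0 : ℝ) < m := by exact_mod_cast hm
  refine ⟨fun x => f (emb x), 1 / 2 * (m : ℝ) ^ (-(1 - α)), by positivity, ?_⟩
  intro x y
  have h := hf (emb x) (emb y)
  rw [dist_emb, ← dist_eq_norm] at h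
  have hpp : (m : ℝ) ^ (1 - α) * (m : ℝ) ^ (-(1 - α)) = 1 := by
    rw [← Real.rpow_add hm0, add_neg_cancel, Real.rpow_zero]
  by_cases hxy : x = y
  · subst hxy
    simp only [gridDist_self, mul_zero, dist_self, le_refl, and_self]
  · have hd1 := one_le_gridDist hxy
    have hd0 : 0 < gridDist x y := by linarith
    have hdm := gridDist_le x y
    have e : gridDist x y = gridDist x y ^ (1 - α) * gridDist x y ^ α := by
      rw [← Real.rpow_add hd0, sub_add_cancel, Real.rpow_one]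
    constructor
    · refine le_trans ?_ h.1
      rw [mul_assoc]
      apply mul_le_mul_of_nonneg_left _ (by norm_num)
      calc (m : ℝ) ^ (-(1 - α)) * gridDist x y
          = (m : ℝ) ^ (-(1 - α)) * (gridDist x y ^ (1 - α) * gridDist x y ^ α) := by rw [← e]
        _ ≤ (m : ℝ) ^ (-(1 - α)) * ((m : ℝ) ^ (1 - α) * gridDist x y ^ α) := by
            gcongr
        _ = (m : ℝ) ^ (1 - α) * (m : ℝ) ^ (-(1 - α)) * gridDist x y ^ α := by ring
        _ = gridDist x y ^ α := by rw [hpp, one_mul]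
    · refine le_trans h.2 ?_
      calc K * gridDist x y ^ α ≤ K * gridDist x y ^ (1 : ℝ) := by
            gcongr
        _ = K * gridDist x y := by rw [Real.rpow_one]
        _ = 2 * K * (1 / 2) * ((m : ℝ) ^ (1 - α) * (m : ℝ) ^ (-(1 - α))) * gridDist x y := by
            rw [hpp]; ring
        _ = _ := by ring

/-- **Main result.** -/
theorem result : ∀ q : ℝ, 2 < q → ∀ a : ℝ, 2 / q < a → a < 1 →
    ∃ (Y : Type) (_ : NormedAddCommGroup Y) (_ : NormedSpace ℝ Y) (_ : CompleteSpace Y)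
      (C K : ℝ), HasCotype Y q C ∧
      (∀ n m : ℕ, 1 ≤ n → 1 ≤ m → EmbedsWithDistortion n m Y (K * (m : ℝ) ^ a)) ∧
      (⨅ (n : ℕ) (_ : 1 ≤ n),
        (n : ℝ≥0∞) ^ (-(1 / q)) * distortion n ⌈(n : ℝ) ^ (1 / q)⌉₊ Y) = 0 := by
  intro q hq a ha ha1
  have hq0 : 0 < q := by linarith
  have ha0 : 0 < a := lt_trans (by positivity) ha
  obtain ⟨K, hK, C, hC⟩ := Pool.Agent.H6.Snow.snowflake.{0} (1 - a) (by linarith) (by linarith)
  obtain ⟨Y, i1, i2, i3, hcot, f, hf⟩ := hC (ℕ →ᵇ ℝ)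
  have hqa : 2 / (1 - (1 - a)) < q := by
    rw [sub_sub_cancel, div_lt_iff₀ ha0]
    rw [div_lt_iff₀ hq0] at ha
    linarith
  have hemb : ∀ n m : ℕ, 1 ≤ n → 1 ≤ m → EmbedsWithDistortion n m Y (2 * K * (m : ℝ) ^ a) := by
    intro n m _ hm
    have h := embeds_of_snow (α := 1 - a) (by linarith) hK f hf (n := n) hm
    rwa [sub_sub_cancel] at h
  refine ⟨Y, i1, i2, i3, C q, 2 * K, hcot q hqa, hemb, ?_⟩
  -- the infimum is zero
  have hle : ∀ n : ℕ, 1 ≤ n →
      (n : ℝ≥0∞) ^ (-(1 / q)) * distortion n ⌈(n : ℝ) ^ (1 / q)⌉₊ Y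
        ≤ ENNReal.ofReal (2 * K * 2 ^ a * (n : ℝ) ^ (-((1 - a) / q))) := by
    intro n hn
    have hn1 : (1 : ℝ) ≤ n := by exact_mod_cast hn
    have hn0 : (0 : ℝ) < n := by linarith
    have hr1 : 1 ≤ (n : ℝ) ^ (1 / q) := Real.one_le_rpow hn1 (by positivity)
    set m := ⌈(n : ℝ) ^ (1 / q)⌉₊ with hm
    have hm1 : 1 ≤ m := Nat.one_le_iff_ne_zero.2 (by
      have := Nat.ceil_pos.2 (lt_of_lt_of_le one_pos hr1)
      omega)
    have hm2 : (m : ℝ) ≤ 2 * (n : ℝ) ^ (1 / q) := by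
      have := Nat.ceil_lt_add_one (a := (n : ℝ) ^ (1 / q)) (by positivity)
      linarith
    have h1 : distortion n m Y ≤ ENNReal.ofReal (2 * K * (m : ℝ) ^ a) :=
      iInf₂_le _ (hemb n m hn hm1)
    have h2 : (n : ℝ≥0∞) ^ (-(1 / q)) = ENNReal.ofReal ((n : ℝ) ^ (-(1 / q))) := by
      rw [← ENNReal.ofReal_rpow_of_pos hn0, ENNReal.ofReal_natCast]
    rw [h2]
    refine le_trans (mul_le_mul_right h1 _) ?_
    rw [← ENNReal.ofReal_mul (by positivity)]
    apply ENNReal.ofReal_le_ofReal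
    calc (n : ℝ) ^ (-(1 / q)) * (2 * K * (m : ℝ) ^ a)
        ≤ (n : ℝ) ^ (-(1 / q)) * (2 * K * (2 * (n : ℝ) ^ (1 / q)) ^ a) := by gcongr
      _ = 2 * K * 2 ^ a * (n : ℝ) ^ (-((1 - a) / q)) := by
          rw [Real.mul_rpow (by norm_num) (by positivity), ← Real.rpow_mul hn0.le]
          have : (n : ℝ) ^ (-((1 - a) / q)) = (n : ℝ) ^ (-(1 / q)) * (n : ℝ) ^ (1 / q * a) := by
            rw [← Real.rpow_add hn0]
            congr 1
            ring
          rw [this]
          ring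
  have htend : Tendsto (fun n : ℕ =>
      ENNReal.ofReal (2 * K * 2 ^ a * (n : ℝ) ^ (-((1 - a) / q)))) atTop (𝓝 0) := by
    have h1 : Tendsto (fun n : ℕ => (n : ℝ) ^ (-((1 - a) / q))) atTop (𝓝 0) :=
      (tendsto_rpow_neg_atTop (y := (1 - a) / q) (div_pos (by linarith) hq0)).comp
        tendsto_natCast_atTop_atTop
    have h2 := h1.const_mul (2 * K * 2 ^ a)
    rw [mul_zero] at h2
    have h3 := ENNReal.tendsto_ofReal h2
    rwa [ENNReal.ofReal_zero] at h3
  apply le_antisymm _ bot_le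
  apply ge_of_tendsto htend
  filter_upwards [eventually_ge_atTop 1] with n hn
  exact le_trans (iInf₂_le n hn) (hle n hn)

end Pool.Agent.Results.MP_a656fc_an.SnowflakeCounterexample
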