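import Pool.Agent.H47.S1.Abs

/-!
# Distortion of `ℓ_∞` grids in the trace class `S₁`

There is `c > 0` with `c_{S₁}([m]_∞^n) ≥ c * min m √n` for all `n, m ≥ 1`, where `S₁` is the trace
class of any Hilbert space, for instance of `ℓ₂`. For `m = ⌈√n⌉` this is
`c_{S₁}([⌈√n⌉]_∞^n) ≥ c √n` for all `n ≥ 1`, which answers Q2 affirmatively.
-/

namespace Pool.Agent.Results.MP_a656fc_an.TraceClassGrid

open scoped InnerProductSpace ENNReal

/-- The grid `{0, 1, …, m}^n`. -/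
abbrev Grid (n m : ℕ) := Fin n → Fin (m + 1)

/-- A point of the grid as a point of `ℝ^n`. -/
def toReal {n m : ℕ} (x : Grid n m) : Fin n → ℝ := fun i => ((x i : ℕ) : ℝ)

/-- The `ℓ_∞` distance of two points of the grid (`dist` on `Fin n → ℝ` is the sup distance). -/
noncomputable def gridDist {n m : ℕ} (x y : Grid n m) : ℝ := dist (toReal x) (toReal y)

section

variable {β H : Type*} [NormedAddCommGroup H] [InnerProductSpace ℂ H]

/-- `A = |T| = (T* T)^{1/2}`, for bounded operators on a Hilbert space: `A` is the positive operator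
with `A² = T* T`, that is, `⟨A x, A y⟩ = ⟨T x, T y⟩` for all `x, y`. -/
def IsAbs (T A : H →L[ℂ] H) : Prop :=
  A.IsPositive ∧ ∀ x y, ⟪A x, A y⟫_ℂ = ⟪T x, T y⟫_ℂ

/-- `T` belongs to the trace class and `‖T‖_{S₁} = tr |T| = r`, where
`tr |T| = ∑ₖ ⟨eₖ, |T| eₖ⟩` for the orthonormal basis `(eₖ)`. -/
def HasTraceNorm (e : HilbertBasis β ℂ H) (T : H →L[ℂ] H) (r : ℝ) : Prop :=
  ∃ A : H →L[ℂ] H, IsAbs T A ∧ HasSum (fun k => (⟪e k, A (e k)⟫_ℂ).re) r

/-- The grid `[m]_∞^n` embeds with distortion `D` into the trace class of the Hilbert space `H`. -/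
def EmbedsWithDistortion (e : HilbertBasis β ℂ H) (n m : ℕ) (D : ℝ) : Prop :=
  ∃ (f : Grid n m → (H →L[ℂ] H)) (l : ℝ), 0 < l ∧ (∀ x, ∃ r, HasTraceNorm e (f x) r) ∧
    ∀ x y, ∃ r, HasTraceNorm e (f x - f y) r ∧
      l * gridDist x y ≤ r ∧ r ≤ D * l * gridDist x y

/-- `c_{S₁}([m]_∞^n)`: the infimum of the distortions of embeddings of `[m]_∞^n` into `S₁`, the
trace class of the Hilbert space `H`. -/
noncomputable def distortionS1 (e : HilbertBasis β ℂ H) (n m : ℕ) : ℝ≥0∞ :=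
  ⨅ (D : ℝ) (_ : EmbedsWithDistortion e n m D), ENNReal.ofReal D

end

universe u v

/-- **Main result**: `c_{S₁}([m]_∞^n) ≥ c * min m √n` for all `n, m ≥ 1`, for the trace class `S₁`
of every Hilbert space `H`. For `m = ⌈√n⌉` the minimum is `√n`, and for `H = ℓ₂` this is Q2
(see `answers_Q2`). -/
theorem result : ∃ c : ℝ, 0 < c ∧
    ∀ (β : Type u) (H : Type v) [NormedAddCommGroup H] [InnerProductSpace ℂ H] [CompleteSpace H]
      (e : HilbertBasis β ℂ H) (n m : ℕ), 1 ≤ n → 1 ≤ m →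
        ENNReal.ofReal (c * min (m : ℝ) (Real.sqrt n)) ≤ distortionS1 e n m := by
  refine ⟨1 / 240, by norm_num, fun β H _ _ _ e n m hn hm => ?_⟩
  refine le_iInf₂ fun D hD => ENNReal.ofReal_le_ofReal ?_
  obtain ⟨f, l, hl, -, hf⟩ := hD
  refine Pool.Agent.H47.S1.op_grid e hn hm hl f (fun x y => ?_) (fun x y => ?_)
  · obtain ⟨r, ⟨A, hA, hr⟩, h1, -⟩ := hf x y
    rw [Pool.Agent.H47.S1.traceNorm_eq e hA.1 hA.2 hr]
    exact ENNReal.ofReal_le_ofReal h1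
  · obtain ⟨r, ⟨A, hA, hr⟩, -, h2⟩ := hf x y
    rw [Pool.Agent.H47.S1.traceNorm_eq e hA.1 hA.2 hr]
    exact ENNReal.ofReal_le_ofReal h2

/-- The standard orthonormal basis of the complex Hilbert space `ℓ₂`. -/
noncomputable def stdBasis : HilbertBasis ℕ ℂ (lp (fun _ : ℕ => ℂ) 2) :=
  HilbertBasis.ofRepr (LinearIsometryEquiv.refl ℂ (lp (fun _ : ℕ => ℂ) 2))

/-- Q2 in its literal form, for the trace class of `ℓ₂`. -/
theorem answers_Q2 : ∃ c : ℝ, 0 < c ∧ ∀ n : ℕ, 1 ≤ n →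
    ENNReal.ofReal (c * Real.sqrt n) ≤ distortionS1 stdBasis n ⌈Real.sqrt n⌉₊ := by
  obtain ⟨c, hc, key⟩ := result
  refine ⟨c, hc, fun n hn => ?_⟩
  have h1 : (1 : ℝ) ≤ n := by exact_mod_cast hn
  have h2 : 0 < Real.sqrt n := Real.sqrt_pos.mpr (by linarith)
  have h3 : 1 ≤ ⌈Real.sqrt n⌉₊ := Nat.one_le_iff_ne_zero.mpr (Nat.ceil_pos.mpr h2).ne'
  have h4 : min ((⌈Real.sqrt n⌉₊ : ℕ) : ℝ) (Real.sqrt n) = Real.sqrt n :=
    min_eq_right (Nat.le_ceil _)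
  have := key _ _ stdBasis n ⌈Real.sqrt n⌉₊ hn h3
  rwa [h4] at this

end Pool.Agent.Results.MP_a656fc_an.TraceClassGrid
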